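import Mathlib
import Pool.Agent.H890.Wl9

/-!
MP_df5e61_ag, Q1: the boundary can be removed. The ascending chain condition for the minimal log
discrepancies of pairs `(X, Δ)` with coefficients in a finite set of rational numbers is equivalent
to the one for varieties without boundary.
-/

set_option autoImplicit false

namespace Pool.Agent.Results.MP_df5e61_ag.BoundaryRemovalAcc

open FF Pool.Agent.W602.GT Pool.Agent.Y172 Pool.Agent.R887 Pool.Agent.H890

/-- (1) Let `X` be a normal projective variety over `ℂ` of dimension `n ≥ 1` with function field `K`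
(`y` is its generic point, in homogeneous coordinates), `Δ` an effective `ℚ`-divisor such that `b Δ`
is integral, `b ≥ 2`, and let `x` be a closed point of `X` (the centre of `Q`) in the support of `Δ`
near which `Δ` is `ℚ`-Cartier. Then there is a normal projective variety `V` (without boundary) of
dimension `n + 2 b - 2`, with generic point `v` and function field `M`, birational to
`X × P ^ (2 b - 2)` (`M` is the field of rational functions in `2 b - 2` variables `t` over `K`), and a
closed point `p` of `V` (the centre of `P`) such that `P` lies over `Q` and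
`mld_p (V) = mld_x (X, Δ) + 1 / b` if `mld_x (X, Δ) ≥ 0`.

(2) Hence, for every set `Γ` of rational numbers with `b Γ ⊆ ℤ`, every minimal log discrepancy `c` of
a pair of dimension `n` with coefficients in `Γ` is one of a variety of dimension `n`, or `c + 1 / b`
is one of a variety of dimension `n + 2 b - 2`.

(3) The minimal log discrepancies of the varieties without boundary satisfy the ascending chain
condition in all dimensions if and only if those of the pairs `(X, Δ)` with coefficients in `Γ` satisfy
it in all dimensions for all finite sets `Γ` of rational numbers. -/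
theorem result :
    (∀ (K : Type) [Field K] [Algebra ℂ K] (n b N : ℕ) (y : Fin (N + 1) → K)
      (Δ : Place ℂ K → ℚ) (Q : Place ℂ K), Algebra.trdeg ℂ K = n → 1 ≤ n → 2 ≤ b →
      NormalModel y → Effective y Δ → (∀ P, IsPrimeDivisor y P → ∃ m : ℤ, (b : ℚ) * Δ P = m) →
      Divisorial n Q → ClosedPoint y Q → QCartierAt y Δ Q → InSupp y Δ Q →
      ∃ (M : Type) (_ : Field M) (_ : Algebra ℂ M) (_ : Algebra K M) (_ : IsScalarTower ℂ K M)
        (t : Fin (2 * b - 2) → M) (N' : ℕ) (v : Fin (N' + 1) → M) (P : Place ℂ M),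
        AlgebraicIndependent K t ∧ IntermediateField.adjoin K (Set.range t) = ⊤ ∧
        NormalModel v ∧ Algebra.trdeg ℂ M = (n + (2 * b - 2) : ℕ) ∧
        Divisorial (n + (2 * b - 2)) P ∧ (∃ e, Over P Q e) ∧ ClosedPoint v P ∧
        ∀ c : ℚ, 0 ≤ c → IsMld y n Δ Q c → IsMld v (n + (2 * b - 2)) 0 P (c + 1 / b)) ∧
    (∀ (n b : ℕ) (Γ : Set ℚ), 2 ≤ b → (∀ γ ∈ Γ, ∃ m : ℤ, (b : ℚ) * γ = m) →
      MldSet n Γ ⊆ MldSet n ∅ ∪ {c | c + 1 / b ∈ MldSet (n + (2 * b - 2)) ∅}) ∧
    ((∀ n, SatisfiesACC (MldSet n ∅)) ↔
      ∀ (n : ℕ) (Γ : Set ℚ), Γ.Finite → SatisfiesACC (MldSet n Γ)) :=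
  ⟨fun K _ _ _ _ _ _ _ _ hn hn1 hb hy hΔ hint hQ hcl hcar hsup =>
    weil_removal K hb hn1 hn hy hΔ hint hQ hcl hcar hsup,
    fun _ _ _ hb hΓ => mldSet_subset hb hΓ, acc_iff_acc⟩

end Pool.Agent.Results.MP_df5e61_ag.BoundaryRemovalAcc
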