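import Mathlib
import Pool.Agent.H895.ND.Et

/-!
# The ACC for minimal log discrepancies of log canonical nondegenerate complete intersection pairs

`Y ∋ P`: an affine toric variety of dimension `d + r` with a fixed point, given by any strictly
convex rational cone of dimension `d + r` (simplicial or not). `X' ⊂ Y`: a subvariety through `P` of
dimension `d` and any codimension `r ≥ 0`, the closure of the zero set `{F_1 = ... = F_r = 0}` in the
torus of Laurent polynomials `F_j` which generate a prime ideal, nondegenerate at `P`: for all weights
`w` in the interior of the cone the zero set in the torus of the initial forms of `F_1, ..., F_r` is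
smooth of codimension `r`, or empty (Khovanskii). The boundary `B'` on `X'`:
`K_X' + B' = (K_Y + X_1 + ... + X_r + ∑ β_i D_i + ∑ b_k H_k)|_X'` near `P`, where the `D_i` are the toric
prime divisors and the `X_j`, `H_k` are the closures of the zero sets of `F_j` and of any number of
other Laurent polynomials `G_k`; either the `b_k` are at most `1` and the `H_k` are nondegenerate, that
is in general position with respect to `X'` (`Nondeg`), or the minimal log discrepancy is the log
discrepancy of a divisor of toric type (`Computed`), and then the `H_k` are arbitrary.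

`(X ∋ x, B)`: any pair and any closed point such that `K_X + B` is `ℝ`-Cartier at `x` and `(X, B)` is
at `x` étale locally isomorphic to such a pair `(X', B')` at `P`.

Theorem: for all `d ≥ 1`, all `R` and every DCC set `Γ` the set of the minimal log discrepancies
`m ≥ 0` of these pairs `(X ∋ x, B)`, with all `β_i` and `b_k` in `Γ ∪ {0}` and either `r ≤ R` or all
`F_j` of multiplicity at least two (`MultTwo`; then there is no bound on `r`), satisfies the ascending
chain condition.

The only assumption on the singularities of `(X, B)` is that it is log canonical (`m ≥ 0`). It need not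
be of klt type, and the ambient pair `(Y, X_1 + ... + ∑ b_k H_k)` is not assumed to be log canonical.

The proof: the minimal log discrepancy `m` is the least value of
`la (w) = ψ · w - ∑ φ_j (w) - ∑ b_k φ'_k (w)` at the lattice points `w` in the interior of the cone
which satisfy the condition of Rado and Bernstein, that is for which the initial forms of the `F_j` have
a common zero in the torus (`formula` in `Pool.Agent.H895.ND.Asm`). Here `y^(-ψ) ∏ G_k^(b_k)` is the
local equation and `φ_j (w)`, `φ'_k (w)` are the least weights of the monomials of `F_j` and `G_k`.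
Then (inversion of adjunction) `la ≥ 0` at all the lattice points in the cone (`lc_of_rado` in
`Pool.Agent.H895.ND.Inv`): if not, take a rational vector `z` with the greatest value of `-la` such that
`w - z` lies in the cone, `w` a vector with Rado's condition; in the cone spanned by `z` and by the
edges of the face of `w - z` one can walk, with `la` not increasing, to a vector with the condition of
Rado and with `la < 0`. The value `m` is in general bigger than the least value of `la` at all the
interior lattice points: the precise inversion of adjunction fails. But there is a simplicial cone,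
spanned by edges of the given cone and by log canonical places (vectors with `la = 0`), with
`la (w) = m` for a vector `w` in its relative interior, and such that no nonzero lattice vector in its
face spanned by the edges has `la = 0` (`exists_cone` in `Pool.Agent.H895.ND.Cone`). There the walk,
which stops as the `φ_j` and `φ'_k` are given by finitely many monomials (Dickson's lemma), shows that
`m` is the least value of `la` at all the lattice vectors in the relative interior (`min_cone`). So `m`
is the minimal log discrepancy of a monomial pair on a quotient of `ℂ^p`, `p ≤ d + r`, with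
coefficients in `Γ ∪ {1}`, and the ACC for these pairs applies.

The definitions are in `Pool.Agent.H895.ND.Defs` (`Bdry`, `Bdry.Nondeg`, `IsRestr`, `Computed`,
`Bdry.In`, `MultTwo`, `EtIso`), in the library files `Helper43K9.CI.Defs` (`CIGerm`, `GM`),
`Helper58K9.ET.Defs` (`Etale`, `Etale.im`, `OverPt`, `Ext`, `ordE`), `Helper43K9.NH.Defs` (`ch`, `AA`,
`wt`, `Inn`, `expo`, `phi`, `dot`) and in `H436R3.Fol.Defs`, `H436R3.KT.Defs`, `W497.Mld.Defs`
(valuations, `Foliation`, `IsCanOrd`, `AffVar`, `Pt`, `EffDiv`, `LocEq`, `IsOverGerm`, `IsLogDisc`,
`IsMld`) and `TH165.ACC` (`pr`, `Prim`, `Cn`, `lead`, `IsDCC`, `IsACC`).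
-/

set_option autoImplicit false

namespace Pool.Agent.Results.MP_df5e61_ag.LcNondegIntersections

open Pool.Agent.TH165.ACC Pool.Agent.W497.Mld Pool.Agent.H436R3.KT Pool.Agent.Helper43K9.CI
open Pool.Agent.H895.ND

/-- The minimal log discrepancies `m ≥ 0` of the pairs `(X ∋ x, B)`, `X` normal, which are étale
locally isomorphic to a pair `(X' ∋ P, B')`, where `X'` is a nondegenerate complete intersection of
dimension `d` and codimension `r` in a toric germ `Y ∋ P`, with `r ≤ R` or with equations of
multiplicity at least two, and `K_X' + B'` is the restriction of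
`K_Y + X_1 + ... + X_r + ∑ β_i D_i + ∑ b_k H_k`, with `β_i, b_k ∈ Γ ∪ {0}` and the `H_k` nondegenerate,
or arbitrary if `m` is the log discrepancy of a divisor of toric type. -/
def ndMlds (d R : ℕ) (Γ : Set ℝ) : Set ℝ :=
  {m : ℝ | 0 ≤ m ∧ ∃ (K : Type) (_ : Field K) (_ : Algebra ℂ K) (X : AffVar K) (B : EffDiv X)
    (x : Pt X) (e : LocEq B x), IsNormal X ∧ Pool.Agent.W497.Mld.IsMld e m ∧
    ∃ (r s : ℕ) (L : Type) (_ : Field L) (_ : Algebra ℂ L) (g : CIGerm r d L) (b : Bdry g s)
      (B' : EffDiv g.X) (e' : LocEq B' g.P), (r ≤ R ∨ MultTwo g) ∧ b.In Γ ∧
        Pool.Agent.H895.ND.IsRestr b e' ∧ (b.Nondeg ∨ Computed b e' m) ∧ EtIso e e'}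

/-- **The ACC for minimal log discrepancies of log canonical nondegenerate complete intersection
pairs.** -/
theorem result (d R : ℕ) (hd : 0 < d) (Γ : Set ℝ) (hΓ : Pool.Agent.TH165.ACC.IsDCC Γ) :
    IsACC (ndMlds d R Γ) := by
  intro u hu hmem
  refine acc_union (N := d + (R + d)) (S := fun k => {a | ∃ s, a ∈ mldsR k s (insert 1 Γ)})
    (fun k _ => acc (Pool.Agent.Helper43K9.NH.dcc_insert hΓ)) u hu fun k => ?_
  obtain ⟨hm0, K, i1, i2, X, B, x, e, -, hm, r, s, L, i3, i4, g, b, B', e', hr, hb, hres, hnd,
    het⟩ := hmem k
  have hm' := (isMld_of_etIso het (u k)).1 hm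
  have hdr : 0 < d + r := by omega
  obtain ⟨p, hp, q, hq⟩ := mem_comb hdr b hres hb hm0 hm' hnd
  refine ⟨p, ?_, q, hq⟩
  rcases hr with hr | hr
  · omega
  · have := codim_le hdr b hres hm0 hm' hnd hr
    omega

end Pool.Agent.Results.MP_df5e61_ag.LcNondegIntersections
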